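import Pool.Agent.H15.U.Defs2

/-!
# Project U2, BAN: Banach's fixed point theorem in weighted `ℓ²`
-/

namespace Pool.Agent.H78.U

open Pool.Agent.H26.U Pool.Agent.H15.U

variable {X : Type} [Fintype X]

/-- the scaled vector -/
noncomputable def sc (ω : X → ℝ) (r : X → ℂ) : EuclideanSpace ℂ X :=
  WithLp.toLp 2 (fun x => ((√(ω x) : ℝ) : ℂ) * r x)

/-- the inverse of `sc` -/
noncomputable def un (ω : X → ℝ) (v : EuclideanSpace ℂ X) : X → ℂ :=
  fun x => (((√(ω x))⁻¹ : ℝ) : ℂ) * v x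

theorem norm_sc (ω : X → ℝ) (hω : ∀ x, 0 < ω x) (r : X → ℂ) : ‖sc ω r‖ = nw ω r := by
  rw [EuclideanSpace.norm_eq, nw]
  congr 1
  refine Finset.sum_congr rfl fun x _ => ?_
  simp only [sc]
  rw [norm_mul, mul_pow, Complex.norm_real, Real.norm_of_nonneg (Real.sqrt_nonneg _),
    Real.sq_sqrt (hω x).le]

theorem un_sc (ω : X → ℝ) (hω : ∀ x, 0 < ω x) (r : X → ℂ) : un ω (sc ω r) = r := by
  funext x
  have h : √(ω x) ≠ 0 := (Real.sqrt_pos.mpr (hω x)).ne'
  simp only [un, sc]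
  rw [← mul_assoc, ← Complex.ofReal_mul, inv_mul_cancel₀ h, Complex.ofReal_one, one_mul]

theorem sc_un (ω : X → ℝ) (hω : ∀ x, 0 < ω x) (v : EuclideanSpace ℂ X) : sc ω (un ω v) = v := by
  ext x
  have h : √(ω x) ≠ 0 := (Real.sqrt_pos.mpr (hω x)).ne'
  simp only [un, sc]
  rw [← mul_assoc, ← Complex.ofReal_mul, mul_inv_cancel₀ h, Complex.ofReal_one, one_mul]

theorem nw_un (ω : X → ℝ) (hω : ∀ x, 0 < ω x) (v : EuclideanSpace ℂ X) : nw ω (un ω v) = ‖v‖ := by
  rw [← norm_sc ω hω, sc_un ω hω]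

theorem sc_sub (ω : X → ℝ) (r r' : X → ℂ) : sc ω r - sc ω r' = sc ω (fun x => r x - r' x) := by
  ext x
  simp only [sc, PiLp.sub_apply]
  ring

theorem un_sub (ω : X → ℝ) (v w : EuclideanSpace ℂ X) :
    (fun x => un ω v x - un ω w x) = un ω (v - w) := by
  funext x
  simp only [un, PiLp.sub_apply]
  ring

theorem nw_le (ω : X → ℝ) (hω : ∀ x, 0 < ω x) {A M : ℝ} (hA : 0 ≤ A) (hM : 0 ≤ M)
    (hs : ∑ x, ω x ≤ A ^ 2) (g : X → ℂ) (hg : ∀ x, ‖g x‖ ≤ M) : nw ω g ≤ A * M := by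
  rw [nw]
  apply Real.sqrt_le_iff.mpr
  refine ⟨by positivity, ?_⟩
  calc ∑ x, ω x * ‖g x‖ ^ 2 ≤ ∑ x, ω x * M ^ 2 := by
        refine Finset.sum_le_sum fun x _ => ?_
        exact mul_le_mul_of_nonneg_left (pow_le_pow_left₀ (norm_nonneg _) (hg x) 2) (hω x).le
    _ = (∑ x, ω x) * M ^ 2 := by rw [Finset.sum_mul]
    _ ≤ A ^ 2 * M ^ 2 := mul_le_mul_of_nonneg_right hs (by positivity)
    _ = (A * M) ^ 2 := by ring

theorem nw_nonneg (ω : X → ℝ) (g : X → ℂ) : 0 ≤ nw ω g := Real.sqrt_nonneg _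

theorem nw_zero (ω : X → ℝ) : nw ω (fun _ => 0) = 0 := by simp [nw]

theorem BAN : S_BAN := by
  intro X _ ω hω P A L ε R hA hL hε hR hs hP0 hP hsmall
  set ρ := 2 * A * R with hρ
  have hρ0 : 0 ≤ ρ := by positivity
  set K := 4 * A ^ 2 * L * R + 2 * A * ε with hK
  have hK0 : 0 ≤ K := by positivity
  set N : EuclideanSpace ℂ X → EuclideanSpace ℂ X := fun v => sc ω (P (un ω v)) with hN
  have hlip : ∀ v w : EuclideanSpace ℂ X, ‖v‖ ≤ ρ → ‖w‖ ≤ ρ → ‖N v - N w‖ ≤ K * ‖v - w‖ := by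
    intro v w hv hw
    simp only [hN]
    rw [sc_sub, norm_sc ω hω]
    have h1 : nw ω (un ω v) ≤ ρ := by rw [nw_un ω hω]; exact hv
    have h2 : nw ω (un ω w) ≤ ρ := by rw [nw_un ω hω]; exact hw
    have h3 : nw ω (fun x => un ω v x - un ω w x) = ‖v - w‖ := by
      rw [un_sub, nw_un ω hω]
    have h4 : ∀ x, ‖P (un ω v) x - P (un ω w) x‖ ≤ (L * (ρ + ρ) + ε) * ‖v - w‖ := by
      intro x
      refine (hP _ _ h1 h2 x).trans ?_
      rw [h3]
      apply mul_le_mul_of_nonneg_right _ (norm_nonneg _)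
      have := mul_le_mul_of_nonneg_left (add_le_add h1 h2) hL
      linarith
    refine (nw_le ω hω hA (by positivity) hs _ h4).trans ?_
    have h5 : A * ((L * (ρ + ρ) + ε) * ‖v - w‖) = (4 * A ^ 2 * L * R + A * ε) * ‖v - w‖ := by
      rw [hρ]; ring
    rw [h5]
    apply mul_le_mul_of_nonneg_right _ (norm_nonneg _)
    have : 0 ≤ A * ε := by positivity
    rw [hK]
    linarith
  have hN0 : ‖N 0‖ ≤ A * R := by
    simp only [hN]
    rw [norm_sc ω hω]
    have h0 : un ω (0 : EuclideanSpace ℂ X) = fun _ => 0 := by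
      funext x
      simp [un]
    rw [h0]
    exact nw_le ω hω hA hR hs _ hP0
  have hmaps : Set.MapsTo N (Metric.closedBall 0 ρ) (Metric.closedBall 0 ρ) := by
    intro v hv
    rw [mem_closedBall_zero_iff] at hv ⊢
    have h1 : ‖N v‖ ≤ ‖N 0‖ + ‖N v - N 0‖ := by
      have := norm_add_le (N 0) (N v - N 0)
      rwa [add_sub_cancel] at this
    -- a finer bound of the difference
    have h3 : ‖N v - N 0‖ ≤ A * ((L * ρ + ε) * ρ) := by
      simp only [hN]
      rw [sc_sub, norm_sc ω hω]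
      refine nw_le ω hω hA (by positivity) hs _ ?_
      intro x
      have h2 : nw ω (un ω v) ≤ ρ := by rw [nw_un ω hω]; exact hv
      have h4 : nw ω (un ω (0 : EuclideanSpace ℂ X)) = 0 := by rw [nw_un ω hω, norm_zero]
      have h5 : nw ω (fun x => un ω v x - un ω (0 : EuclideanSpace ℂ X) x) = ‖v‖ := by
        rw [un_sub, nw_un ω hω, sub_zero]
      refine (hP _ _ h2 (by rw [h4]; exact hρ0) x).trans ?_
      rw [h4, h5, add_zero]
      have h6 : L * nw ω (un ω v) ≤ L * ρ := mul_le_mul_of_nonneg_left h2 hL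
      exact mul_le_mul (by linarith) hv (norm_nonneg _) (by positivity)
    have h4 : A * ((L * ρ + ε) * ρ) = (A * R) * K := by
      rw [hρ, hK]; ring
    have h5 : (A * R) * K ≤ (A * R) * 1 := mul_le_mul_of_nonneg_left hsmall.le (by positivity)
    rw [h4] at h3
    rw [hρ]
    linarith
  have hcontr : ContractingWith ⟨K, hK0⟩
      (hmaps.restrict N (Metric.closedBall 0 ρ) (Metric.closedBall 0 ρ)) := by
    refine ⟨?_, LipschitzWith.of_dist_le_mul ?_⟩
    · rw [← NNReal.coe_lt_coe]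
      exact hsmall
    · intro v w
      have hv : ‖(v : EuclideanSpace ℂ X)‖ ≤ ρ := mem_closedBall_zero_iff.mp v.2
      have hw : ‖(w : EuclideanSpace ℂ X)‖ ≤ ρ := mem_closedBall_zero_iff.mp w.2
      have := hlip v w hv hw
      rw [Subtype.dist_eq, Subtype.dist_eq, dist_eq_norm, dist_eq_norm]
      exact this
  obtain ⟨v, hvm, hv, _⟩ := hcontr.exists_fixedPoint' (Metric.isClosed_closedBall.isComplete)
    hmaps (x := 0) (by simp [hρ0]) (edist_ne_top _ _)
  refine ⟨un ω v, ?_, ?_⟩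
  · have h1 : N v = v := hv
    have h2 : un ω (N v) = P (un ω v) := by
      simp only [hN]
      exact un_sc ω hω _
    rw [← h2, h1]
  · rw [nw_un ω hω]
    exact mem_closedBall_zero_iff.mp hvm

end Pool.Agent.H78.U
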